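import Pool.Agent.Helper94.UP.Sheet

open scoped ZeroAtInfty ContDiff NNReal
open Set Filter Topology MeasureTheory

namespace Pool.Agent.Helper94.UP

theorem pu_prod_mem {X : Type*} (b : ℕ → X → ℝ) (hb : ∀ n x, 0 ≤ b n x ∧ b n x ≤ 1) (n : ℕ)
    (x : X) : 0 ≤ ∏ m ∈ Finset.range n, (1 - b m x) ∧
      ∏ m ∈ Finset.range n, (1 - b m x) ≤ 1 := by
  constructor
  · exact Finset.prod_nonneg fun m _ => by linarith [(hb m x).2]
  · exact Finset.prod_le_one (fun m _ => by linarith [(hb m x).2])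
      (fun m _ => by linarith [(hb m x).1])

theorem pu_mul {p p' a a' U V : ℝ} (ha : 0 ≤ a) (ha1 : a ≤ 1) (hp : 0 ≤ p') (hp1 : p' ≤ 1)
    (h1 : |p - p'| ≤ U) (h2 : |a - a'| ≤ V) : |a * p - a' * p'| ≤ U + V := by
  have e : a * p - a' * p' = a * (p - p') + p' * (a - a') := by ring
  rw [e]
  have hU : 0 ≤ |p - p'| := abs_nonneg _
  have hV : 0 ≤ |a - a'| := abs_nonneg _
  calc |a * (p - p') + p' * (a - a')| ≤ |a * (p - p')| + |p' * (a - a')| := abs_add_le _ _
    _ = a * |p - p'| + p' * |a - a'| := by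
        rw [abs_mul, abs_mul, abs_of_nonneg ha, abs_of_nonneg hp]
    _ ≤ 1 * |p - p'| + 1 * |a - a'| :=
        add_le_add (mul_le_mul_of_nonneg_right ha1 hU) (mul_le_mul_of_nonneg_right hp1 hV)
    _ ≤ U + V := by linarith

theorem pu_prod_lip {X : Type*} [NormedAddCommGroup X] (b : ℕ → X → ℝ) (B : ℕ → ℝ)
    (hb : ∀ n x, 0 ≤ b n x ∧ b n x ≤ 1) (hl : ∀ n x y, |b n x - b n y| ≤ B n * ‖x - y‖) (n : ℕ)
    (x y : X) : |∏ m ∈ Finset.range n, (1 - b m x) - ∏ m ∈ Finset.range n, (1 - b m y)| ≤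
      (∑ m ∈ Finset.range n, B m) * ‖x - y‖ := by
  induction n with
  | zero => simp
  | succ n ih =>
    rw [Finset.prod_range_succ, Finset.prod_range_succ, Finset.sum_range_succ, add_mul]
    rw [mul_comm (∏ m ∈ Finset.range n, (1 - b m x)), mul_comm (∏ m ∈ Finset.range n, (1 - b m y))]
    refine pu_mul (by linarith [(hb n x).2]) (by linarith [(hb n x).1])
      (pu_prod_mem b hb n y).1 (pu_prod_mem b hb n y).2 ih ?_
    have e : (1 - b n x) - (1 - b n y) = -(b n x - b n y) := by ring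
    rw [e, abs_neg]
    exact hl n x y

theorem stPU.{u} : ST_PU.{u} := by
  intro k X _ _ b B hc hb hB hl
  refine ⟨fun n => ?_, fun n x => ?_, fun N x => ?_, fun n x y => ?_⟩
  · have h1 : ContDiff ℝ k (fun x => ∏ m ∈ Finset.range n, (1 - b m x)) := by
      induction n with
      | zero => simpa using contDiff_const
      | succ n ih =>
        simp only [Finset.prod_range_succ]
        exact ih.mul (contDiff_const.sub (hc n))
    exact (hc n).mul h1
  · exact mul_nonneg (hb n x).1 (pu_prod_mem b hb n x).1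
  · induction N with
    | zero => simp
    | succ N ih =>
      rw [Finset.sum_range_succ, Finset.prod_range_succ, ih, psi]
      ring
  · rw [Finset.sum_range_succ, add_mul]
    exact pu_mul (hb n x).1 (hb n x).2 (pu_prod_mem b hb n y).1 (pu_prod_mem b hb n y).2
      (pu_prod_lip b B hb hl n x y) (hl n x y)

end Pool.Agent.Helper94.UP
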